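import Mathlib
import Pool.Agent.H597R3.Pt10

set_option autoImplicit false

open MeasureTheory

namespace Pool.Agent.Results.MP_d44141_an.NotPurePoint

open Pool.Agent.H597R3.PtDefs Pool.Agent.H597R3.Pt

/-- The random Fibonacci substitution is compatible and irreducible Pisot, and its subshift has a
minimal subsystem `Y` that is not a pure point system; in fact for every shift-invariant Borel
probability measure on `Y` the Koopman operator fails to have pure point spectrum. -/
theorem result :
    Compatible randomFibonacci ∧ IrreduciblePisot randomFibonacci ∧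
      ∃ Y : Set (ℤ → Fin 2), IsMinimalSubsystem (subshift randomFibonacci) Y ∧
        ¬ IsPurePointSystem Y ∧
        ∀ μ : Measure (ℤ → Fin 2), IsProbabilityMeasure μ → μ Yᶜ = 0 →
          MeasurePreserving shift μ μ → ¬ HasPurePointSpectrum μ := by
  obtain ⟨Y, hY1, hY2, hY3, hY4, hY5⟩ := exists_minimal
  have hall : ∀ μ : Measure (ℤ → Fin 2), IsProbabilityMeasure μ → μ Yᶜ = 0 →
      MeasurePreserving shift μ μ → ¬ HasPurePointSpectrum μ := by
    intro μ hμ h0 h
    exact not_pure (measure_mono_null (Set.compl_subset_compl.2 hY1) h0) h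
  refine ⟨fib_compat, fib_pisot, Y, ⟨hY1.trans HH_sub, hY2, hY3, hY4, hY5⟩, ?_, hall⟩
  intro hpp
  obtain ⟨μ, hμ, h0, h⟩ := exists_inv hY3 hY2 hY4
  exact hall μ hμ h0 h (hpp μ hμ h0 h)

end Pool.Agent.Results.MP_d44141_an.NotPurePoint
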